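import Pool.Agent.H83.UE.Targets3

/-!
# Row VOL of the board udb_modules (MP_75a732_an): volumes of the inverse images of
neighbourhoods of hypersurfaces
-/

set_option autoImplicit false

open Polynomial MeasureTheory Filter Topology Set
open scoped OnePoint ComplexConjugate ComplexOrder Laplacian ENNReal Nat
open Pool.Agent.H83.UE

namespace Pool.Agent.H80.UDB

/-! ### the chordal distance -/

theorem norm_wd_le (v w : ℂ × ℂ) : ‖wd v w‖ ≤ 2 * (‖v‖ * ‖w‖) := by
  unfold wd
  have h1 := norm_fst_le v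
  have h2 := norm_snd_le v
  have h3 := norm_fst_le w
  have h4 := norm_snd_le w
  calc ‖v.1 * w.2 - v.2 * w.1‖ ≤ ‖v.1 * w.2‖ + ‖v.2 * w.1‖ := norm_sub_le _ _
    _ = ‖v.1‖ * ‖w.2‖ + ‖v.2‖ * ‖w.1‖ := by rw [norm_mul, norm_mul]
    _ ≤ ‖v‖ * ‖w‖ + ‖v‖ * ‖w‖ := add_le_add
        (mul_le_mul h1 h4 (norm_nonneg _) (norm_nonneg _))
        (mul_le_mul h2 h3 (norm_nonneg _) (norm_nonneg _))
    _ = _ := by ring

theorem cd_nonneg (v w : ℂ × ℂ) : 0 ≤ cd v w := by
  unfold cd
  positivity

theorem cd_le_two (v w : ℂ × ℂ) : cd v w ≤ 2 := by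
  unfold cd
  exact div_le_of_le_mul₀ (by positivity) (by norm_num) (norm_wd_le v w)

theorem cd_scale (c a b : ℂ) (hc : c ≠ 0) (w : ℂ × ℂ) : cd (c * a, c * b) w = cd (a, b) w := by
  have h1 : ((c * a, c * b) : ℂ × ℂ) = c • (a, b) := rfl
  have h2 : wd (c • ((a, b) : ℂ × ℂ)) w = c * wd (a, b) w := by
    unfold wd
    simp only [Prod.smul_fst, Prod.smul_snd, smul_eq_mul]
    ring
  have hc' : ‖c‖ ≠ 0 := norm_ne_zero_iff.2 hc
  rw [h1]
  unfold cd
  rw [h2, norm_smul, norm_mul, mul_assoc, mul_div_mul_left _ _ hc']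

theorem cd_tri (y ζ e : ℂ × ℂ) (hy : y ≠ 0) (hζ : ζ ≠ 0) (he : e ≠ 0) :
    cd y e ≤ cd y ζ + cd ζ e := by
  have h1 : (wd y e) • ζ = (wd y ζ) • e + (wd ζ e) • y := by
    unfold wd
    apply Prod.ext
    · simp only [Prod.smul_fst, Prod.fst_add, smul_eq_mul]
      ring
    · simp only [Prod.smul_snd, Prod.snd_add, smul_eq_mul]
      ring
  have h2 : ‖wd y e‖ * ‖ζ‖ ≤ ‖wd y ζ‖ * ‖e‖ + ‖wd ζ e‖ * ‖y‖ := by
    rw [← norm_smul, ← norm_smul, ← norm_smul, h1]
    exact norm_add_le _ _
  have hy' : 0 < ‖y‖ := norm_pos_iff.2 hy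
  have hζ' : 0 < ‖ζ‖ := norm_pos_iff.2 hζ
  have he' : 0 < ‖e‖ := norm_pos_iff.2 he
  have h3 : cd y e = (‖wd y e‖ * ‖ζ‖) / (‖y‖ * ‖e‖ * ‖ζ‖) := by
    unfold cd
    rw [mul_div_mul_right _ _ hζ'.ne']
  have h4 : cd y ζ + cd ζ e = (‖wd y ζ‖ * ‖e‖ + ‖wd ζ e‖ * ‖y‖) / (‖y‖ * ‖e‖ * ‖ζ‖) := by
    unfold cd
    field_simp
  rw [h3, h4]
  exact div_le_div_of_nonneg_right h2 (by positivity)

theorem vec_ne (e : OnePoint ℂ) : vec e ≠ 0 := by
  rcases e with _ | a
  · intro h
    have h1 := congrArg Prod.fst h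
    exact one_ne_zero h1
  · intro h
    have h1 := congrArg Prod.snd h
    exact one_ne_zero h1

theorem om_fac (E : Finset (OnePoint ℂ)) (z : ℂ) (δ : ℝ) (h : δ ≤ om E z) (e : OnePoint ℂ)
    (he : e ∈ E) : δ ≤ cd (z, 1) (vec e) * 2 ^ E.card := by
  classical
  have h1 : om E z = cd (z, 1) (vec e) * ∏ e' ∈ E.erase e, cd (z, 1) (vec e') := by
    unfold om omh
    rw [Finset.mul_prod_erase E (fun e' => cd (z, 1) (vec e')) he]
  have h2 : ∏ e' ∈ E.erase e, cd (z, 1) (vec e') ≤ 2 ^ E.card := by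
    calc ∏ e' ∈ E.erase e, cd (z, 1) (vec e') ≤ ∏ _e' ∈ E.erase e, (2 : ℝ) :=
          Finset.prod_le_prod (fun _ _ => cd_nonneg _ _) (fun _ _ => cd_le_two _ _)
      _ = 2 ^ (E.erase e).card := by rw [Finset.prod_const]
      _ ≤ 2 ^ E.card := pow_le_pow_right₀ (by norm_num) (Finset.card_le_card (Finset.erase_subset _ _))
  rw [h1] at h
  exact h.trans (mul_le_mul_of_nonneg_left h2 (cd_nonneg _ _))

/-- the logarithm of `omh` at a point which is not close to `E` -/
theorem log_omh (E : Finset (OnePoint ℂ)) (ζ : ℂ × ℂ) (u : ℝ) (hu : 0 ≤ u)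
    (h : ∀ e ∈ E, Real.exp (-u) ≤ cd ζ (vec e)) :
    omh E ζ ≠ 0 ∧ |Real.log (omh E ζ)| ≤ E.card * (u + 1) := by
  have h1 : Real.exp (-u) ^ E.card ≤ omh E ζ := by
    unfold omh
    rw [← Finset.prod_const]
    exact Finset.prod_le_prod (fun _ _ => (Real.exp_pos _).le) h
  have h2 : omh E ζ ≤ 2 ^ E.card := by
    unfold omh
    rw [← Finset.prod_const]
    exact Finset.prod_le_prod (fun _ _ => cd_nonneg _ _) (fun _ _ => cd_le_two _ _)
  have h3 : 0 < omh E ζ := lt_of_lt_of_le (by positivity) h1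
  refine ⟨h3.ne', ?_⟩
  have hN : (0 : ℝ) ≤ E.card := Nat.cast_nonneg _
  rw [abs_le]
  constructor
  · have h4 := Real.log_le_log (by positivity) h1
    rw [Real.log_pow, Real.log_exp] at h4
    nlinarith
  · have h5 := Real.log_le_log h3 h2
    rw [Real.log_pow] at h5
    have h6 : Real.log 2 ≤ 1 := by
      have := Real.log_two_lt_d9
      linarith
    have h7 : (E.card : ℝ) * Real.log 2 ≤ E.card * (u + 1) :=
      mul_le_mul_of_nonneg_left (by linarith) hN
    linarith

/-! ### the iterates -/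

theorem hev_one (D : ℕ) (A : ℂ[X]) (h : A.natDegree ≤ D) (x : ℂ) : hev D A (x, 1) = A.eval x := by
  unfold hev
  rw [Polynomial.eval_eq_sum_range' (Nat.lt_succ_of_le h)]
  refine Finset.sum_congr rfl fun i _ => ?_
  simp only [one_pow, mul_one]

theorem F_eq (h1 : T_IT) {d : ℕ} (hd : 1 ≤ d) (g : RatMap d) (n : ℕ) (x : ℂ) :
    g.F^[n] (x, 1) = ((g.it n).1.eval x, (g.it n).2.eval x) := by
  obtain ⟨h2, h3, -, -, h4⟩ := h1 d hd g n
  rw [h4, hev_one _ _ h2, hev_one _ _ h3]

/-- the exceptional points of the parameter -/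
theorem bad_finite (h1 : T_IT) {d : ℕ} (hd : 2 ≤ d) (g : RatMap d) (n : ℕ) (ζ : ℂ × ℂ)
    (hζ : ζ ≠ 0) : {x : ℂ | (g.it n).1.eval x * ζ.2 - (g.it n).2.eval x * ζ.1 = 0}.Finite := by
  obtain ⟨-, -, h4, h5, -⟩ := h1 d (by omega) g n
  have hpos : 0 < d ^ n := pow_pos (by omega) n
  set P := (g.it n).1
  set Q := (g.it n).2
  have hne : P * C ζ.2 - Q * C ζ.1 ≠ 0 := by
    intro h0
    have h6 : P * C ζ.2 = Q * C ζ.1 := sub_eq_zero.1 h0
    obtain ⟨a, b, hab⟩ := h5
    by_cases hz : ζ.2 = 0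
    · have hz1 : ζ.1 ≠ 0 := fun h => hζ (Prod.ext h hz)
      rw [hz, map_zero, mul_zero] at h6
      have h7 : Q = 0 := by
        rcases mul_eq_zero.1 h6.symm with h | h
        · exact h
        · exact absurd (C_eq_zero.1 h) hz1
      rw [h7, mul_zero, add_zero] at hab
      have h8 : IsUnit P := IsUnit.of_mul_eq_one a (by rw [mul_comm]; exact hab)
      have h9 := natDegree_eq_zero_of_isUnit h8
      rw [h9, h7, natDegree_zero] at h4
      omega
    · have h7 : P = Q * C (ζ.1 / ζ.2) := by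
        have h8 : P * C ζ.2 * C (ζ.2)⁻¹ = Q * C ζ.1 * C (ζ.2)⁻¹ := by rw [h6]
        rw [mul_assoc, mul_assoc, ← C_mul, ← C_mul, mul_inv_cancel₀ hz, C_1, mul_one] at h8
        rw [h8, div_eq_mul_inv]
      have h8 : IsUnit Q := by
        refine IsUnit.of_mul_eq_one (a * C (ζ.1 / ζ.2) + b) ?_
        rw [← hab, h7]
        ring
      have h9 := natDegree_eq_zero_of_isUnit h8
      have h10 : P.natDegree = 0 := by
        have h11 : P.natDegree ≤ Q.natDegree := by
          rw [h7]
          exact natDegree_mul_C_le _ _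
        omega
      omega
  refine Set.Finite.subset (P * C ζ.2 - Q * C ζ.1).roots.toFinset.finite_toSet ?_
  intro x hx
  rw [Finset.mem_coe, Multiset.mem_toFinset, mem_roots hne, IsRoot.def, eval_sub, eval_mul,
    eval_mul, eval_C, eval_C]
  exact hx

theorem Q_finite (h1 : T_IT) {d : ℕ} (hd : 2 ≤ d) (g : RatMap d) (n : ℕ) :
    {x : ℂ | (g.it n).2.eval x = 0}.Finite := by
  have h2 := bad_finite h1 hd g n (1, 0) (by
    intro h
    exact one_ne_zero (congrArg Prod.fst h))
  refine h2.subset ?_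
  intro x hx
  show (g.it n).1.eval x * 0 - (g.it n).2.eval x * 1 = 0
  rw [show (g.it n).2.eval x = 0 from hx]
  ring

theorem cd_val (h1 : T_IT) {d : ℕ} (hd : 2 ≤ d) (g : RatMap d) (n : ℕ) (ζ : ℂ × ℂ) (x : ℂ)
    (hx : (g.it n).2.eval x ≠ 0) : cd (g.F^[n] (x, 1)) ζ = cd (g.val n x, 1) ζ := by
  rw [F_eq h1 (by omega) g n x, ← cd_scale ((g.it n).2.eval x) (g.val n x) 1 hx ζ]
  unfold RatMap.val
  rw [mul_one, mul_div_cancel₀ _ hx]

/-! ### the area of a slice -/

theorem meas_log (h1 : T_IT) {d : ℕ} (hd : 2 ≤ d) (g : RatMap d) (n : ℕ) (ζ : ℂ × ℂ) :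
    Measurable fun x : ℂ => ENNReal.ofReal |Real.log (cd (g.F^[n] (x, 1)) ζ)| := by
  have h2 : (fun x : ℂ => ENNReal.ofReal |Real.log (cd (g.F^[n] (x, 1)) ζ)|) =
      fun x : ℂ => ENNReal.ofReal |Real.log
        (‖(g.it n).1.eval x * ζ.2 - (g.it n).2.eval x * ζ.1‖ /
          (‖((g.it n).1.eval x, (g.it n).2.eval x)‖ * ‖ζ‖))| := by
    funext x
    rw [F_eq h1 (by omega) g n x]
    rfl
  rw [h2]
  have hP : Measurable fun x : ℂ => (g.it n).1.eval x := (g.it n).1.continuous.measurable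
  have hQ : Measurable fun x : ℂ => (g.it n).2.eval x := (g.it n).2.continuous.measurable
  have h3 : Measurable fun x : ℂ => ‖(g.it n).1.eval x * ζ.2 - (g.it n).2.eval x * ζ.1‖ :=
    ((hP.mul_const _).sub (hQ.mul_const _)).norm
  have h4 : Measurable fun x : ℂ => ‖((g.it n).1.eval x, (g.it n).2.eval x)‖ * ‖ζ‖ :=
    ((hP.prodMk hQ).norm).mul_const _
  exact ((Real.measurable_log.comp (h3.div h4)).norm).ennreal_ofReal

theorem slice_area (h1 : T_IT) {d : ℕ} (hd : 2 ≤ d) (g : RatMap d) (E : Finset (OnePoint ℂ))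
    (κ : ℝ) (hg : GoodE g E κ) (D : ℕ) (R : ℝ) : ∃ C : ℝ, 0 ≤ C ∧ ∀ c η : ℝ, 0 < c → 0 < η →
    ∃ n₀ : ℕ, ∀ n, n₀ ≤ n → ∀ ζ : ℂ × ℂ, ‖ζ‖ = 1 →
      volume {t : ℂ | ‖t‖ < R ∧ Real.exp (-(η * (c * (d : ℝ) ^ n))) ≤ om E (g.val n t) ∧
        cd (g.val n t, 1) ζ ≤ Real.exp (-(c / (4 * (D + 1)) * (d : ℝ) ^ n))} ≤
        ENNReal.ofReal (C * η) := by
  obtain ⟨hκ1, hκd, hG⟩ := hg
  obtain ⟨CG, hCG, hCG'⟩ := hG R
  have hd1 : (1 : ℝ) < d := by exact_mod_cast (by omega : 1 < d)
  obtain ⟨A, hA⟩ : ∃ A : ℝ, A = (volume (Metric.ball (0 : ℂ) R)).toReal := ⟨_, rfl⟩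
  have hA0 : 0 ≤ A := by rw [hA]; exact ENNReal.toReal_nonneg
  have hAe : volume (Metric.ball (0 : ℂ) R) = ENNReal.ofReal A := by
    rw [hA, ENNReal.ofReal_toReal measure_ball_lt_top.ne]
  obtain ⟨N, hN⟩ : ∃ N : ℕ, N = E.card := ⟨_, rfl⟩
  have hN0 : (0 : ℝ) ≤ N := Nat.cast_nonneg _
  have hD1 : (0 : ℝ) < D + 1 := by positivity
  refine ⟨8 * (D + 1) * A + 4 * (D + 1) * CG * (N + 1), by positivity, ?_⟩
  intro c η hc hη
  by_cases hη1 : 1 ≤ 8 * (D + 1) * η
  · refine ⟨0, fun n _ ζ _ => ?_⟩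
    calc volume {t : ℂ | ‖t‖ < R ∧ Real.exp (-(η * (c * (d : ℝ) ^ n))) ≤ om E (g.val n t) ∧
        cd (g.val n t, 1) ζ ≤ Real.exp (-(c / (4 * (D + 1)) * (d : ℝ) ^ n))}
        ≤ volume (Metric.ball (0 : ℂ) R) := by
          refine measure_mono ?_
          intro t ht
          rw [mem_ball_zero_iff]
          exact ht.1
      _ = ENNReal.ofReal A := hAe
      _ ≤ _ := by
        refine ENNReal.ofReal_le_ofReal ?_
        have h2 : A ≤ 8 * (D + 1) * A * η := by nlinarith
        have h3 : 0 ≤ 4 * (D + 1) * CG * (N + 1) * η := by positivity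
        nlinarith
  · rw [not_le] at hη1
    obtain ⟨a, ha⟩ : ∃ a : ℝ, a = c / (4 * (D + 1)) := ⟨_, rfl⟩
    have ha0 : 0 < a := by rw [ha]; positivity
    have hca : c = 4 * (D + 1) * a := by rw [ha]; field_simp
    have hηa : η * c < a / 2 := by
      rw [hca]
      nlinarith
    -- the limits
    have hlim1 : Tendsto (fun n : ℕ => (d : ℝ) ^ n) atTop atTop :=
      tendsto_pow_atTop_atTop_of_one_lt hd1
    have hlim2 : Tendsto (fun n : ℕ => Real.exp (a / 2 * (d : ℝ) ^ n)) atTop atTop :=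
      Real.tendsto_exp_atTop.comp (hlim1.const_mul_atTop (by positivity))
    have hlim3 : Tendsto (fun n : ℕ => (κ / d) ^ n + N * (N + 2) / (d : ℝ) ^ n) atTop (𝓝 (0 + 0)) := by
      refine Tendsto.add ?_ ?_
      · exact tendsto_pow_atTop_nhds_zero_of_lt_one (by positivity)
          ((div_lt_one (by linarith)).2 hκd)
      · exact hlim1.const_div_atTop _
    rw [add_zero] at hlim3
    have hev1 := hlim2.eventually_ge_atTop ((2 : ℝ) ^ (N + 1))
    have hev2 := hlim3.eventually (gt_mem_nhds (show (0 : ℝ) < η * c by positivity))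
    obtain ⟨n₀, hn₀⟩ := Filter.eventually_atTop.1 (hev1.and hev2)
    refine ⟨n₀, fun n hn ζ hζ => ?_⟩
    obtain ⟨hn1, hn2⟩ := hn₀ n hn
    rw [← ha]
    obtain ⟨Λ, hΛ⟩ : ∃ Λ : ℝ, Λ = (d : ℝ) ^ n := ⟨_, rfl⟩
    rw [← hΛ] at hn1 hn2 ⊢
    have hΛ0 : 0 < Λ := by rw [hΛ]; positivity
    have hn3 : κ ^ n + N * (N + 2) ≤ η * c * Λ := by
      have h2 : (κ / d) ^ n + N * (N + 2) / Λ = (κ ^ n + N * (N + 2)) / Λ := by
        rw [div_pow, ← hΛ, add_div]
      rw [h2, div_lt_iff₀ hΛ0] at hn2
      exact hn2.le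
    have hζ0 : ζ ≠ 0 := by
      intro h
      rw [h, norm_zero] at hζ
      exact zero_ne_one hζ
    set T := {t : ℂ | ‖t‖ < R ∧ Real.exp (-(η * (c * Λ))) ≤ om E (g.val n t) ∧
        cd (g.val n t, 1) ζ ≤ Real.exp (-(a * Λ))} with hT
    rcases T.eq_empty_or_nonempty with hT0 | ⟨t0, ht0⟩
    · rw [hT0, measure_empty]
      exact bot_le
    · -- `ζ` is not close to `E`
      have hu : 0 ≤ η * (c * Λ) + (N + 1) := by positivity
      have hfar : ∀ e ∈ E, Real.exp (-(η * (c * Λ) + (N + 1))) ≤ cd ζ (vec e) := by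
        intro e he
        have h2 := om_fac E (g.val n t0) _ ht0.2.1 e he
        rw [← hN] at h2
        have hy0 : ((g.val n t0, 1) : ℂ × ℂ) ≠ 0 := fun h => one_ne_zero (congrArg Prod.snd h)
        have h3 := cd_tri (g.val n t0, 1) ζ (vec e) hy0 hζ0 (vec_ne e)
        have h4 := ht0.2.2
        -- `exp (-a Λ) 2 ^ (N + 1) ≤ exp (-η c Λ)`
        have h5 : Real.exp (-(a * Λ)) * 2 ^ (N + 1) ≤ Real.exp (-(η * (c * Λ))) := by
          calc Real.exp (-(a * Λ)) * 2 ^ (N + 1)
              ≤ Real.exp (-(a * Λ)) * Real.exp (a / 2 * Λ) :=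
                mul_le_mul_of_nonneg_left hn1 (Real.exp_pos _).le
            _ = Real.exp (-(a / 2 * Λ)) := by
                rw [← Real.exp_add]
                congr 1
                ring
            _ ≤ Real.exp (-(η * (c * Λ))) := by
                refine Real.exp_le_exp.2 ?_
                nlinarith
        have h6 : (2 : ℝ) ^ (N + 1) = 2 * 2 ^ N := by ring
        have h7 : (0 : ℝ) < 2 ^ N := by positivity
        have h8 : Real.exp (-(η * (c * Λ))) ≤ cd ζ (vec e) * 2 ^ (N + 1) := by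
          rw [h6] at h5 ⊢
          nlinarith
        have h9 : Real.exp (-(η * (c * Λ) + (N + 1))) * 2 ^ (N + 1) ≤
            Real.exp (-(η * (c * Λ))) := by
          have h10 : (2 : ℝ) ^ (N + 1) ≤ Real.exp (N + 1) := by
            have h11 : (2 : ℝ) ≤ Real.exp 1 := by
              have := Real.add_one_le_exp (1 : ℝ)
              linarith
            calc (2 : ℝ) ^ (N + 1) ≤ Real.exp 1 ^ (N + 1) := pow_le_pow_left₀ (by norm_num) h11 _
              _ = Real.exp (N + 1) := by
                rw [← Real.exp_nat_mul]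
                congr 1
                push_cast
                ring
          calc Real.exp (-(η * (c * Λ) + (N + 1))) * 2 ^ (N + 1)
              ≤ Real.exp (-(η * (c * Λ) + (N + 1))) * Real.exp (N + 1) :=
                mul_le_mul_of_nonneg_left h10 (Real.exp_pos _).le
            _ = Real.exp (-(η * (c * Λ))) := by
                rw [← Real.exp_add]
                congr 1
                ring
        have h12 : (0 : ℝ) < 2 ^ (N + 1) := by positivity
        exact le_of_mul_le_mul_right (h9.trans h8) h12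
      obtain ⟨hom0, hlog⟩ := log_omh E ζ _ hu hfar
      rw [← hN] at hlog
      have hint := hCG' n ζ hζ0 hom0
      -- Chebyshev
      have haΛ : 0 < a * Λ := by positivity
      have hcheb := meas_ge_le_lintegral_div (μ := volume.restrict (Metric.ball (0 : ℂ) R))
        (meas_log h1 hd g n ζ).aemeasurable
        (show ENNReal.ofReal (a * Λ) ≠ 0 from (ENNReal.ofReal_pos.2 haΛ).ne') ENNReal.ofReal_ne_top
      have hfin : ({x : ℂ | (g.it n).1.eval x * ζ.2 - (g.it n).2.eval x * ζ.1 = 0} ∪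
          {x : ℂ | (g.it n).2.eval x = 0}).Finite :=
        (bad_finite h1 hd g n ζ hζ0).union (Q_finite h1 hd g n)
      have hsub : T ⊆ ({x : ℂ | (g.it n).1.eval x * ζ.2 - (g.it n).2.eval x * ζ.1 = 0} ∪
          {x : ℂ | (g.it n).2.eval x = 0}) ∪
          ({t | ENNReal.ofReal (a * Λ) ≤ ENNReal.ofReal |Real.log (cd (g.F^[n] (t, 1)) ζ)|} ∩
            Metric.ball (0 : ℂ) R) := by
        intro t ht
        by_cases hb : t ∈ ({x : ℂ | (g.it n).1.eval x * ζ.2 - (g.it n).2.eval x * ζ.1 = 0} ∪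
          {x : ℂ | (g.it n).2.eval x = 0})
        · exact Or.inl hb
        · right
          rw [Set.mem_union, not_or] at hb
          have hQ : (g.it n).2.eval t ≠ 0 := hb.2
          have hW : (g.it n).1.eval t * ζ.2 - (g.it n).2.eval t * ζ.1 ≠ 0 := hb.1
          refine ⟨?_, mem_ball_zero_iff.2 ht.1⟩
          have h2 := cd_val h1 hd g n ζ t hQ
          have h3 : cd (g.F^[n] (t, 1)) ζ ≤ Real.exp (-(a * Λ)) := by
            rw [h2]
            exact ht.2.2
          have h4 : 0 < cd (g.F^[n] (t, 1)) ζ := by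
            rw [F_eq h1 (by omega) g n t]
            unfold cd wd
            have h5 : 0 < ‖((g.it n).1.eval t, (g.it n).2.eval t)‖ := by
              rw [norm_pos_iff]
              intro h
              exact hQ (congrArg Prod.snd h)
            have h6 : 0 < ‖ζ‖ := by rw [hζ]; norm_num
            have h7 : 0 < ‖(g.it n).1.eval t * ζ.2 - (g.it n).2.eval t * ζ.1‖ :=
              norm_pos_iff.2 hW
            exact div_pos h7 (mul_pos h5 h6)
          have h5 : Real.log (cd (g.F^[n] (t, 1)) ζ) ≤ -(a * Λ) := by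
            have h6 := Real.log_le_log h4 h3
            rwa [Real.log_exp] at h6
          refine ENNReal.ofReal_le_ofReal ?_
          rw [abs_of_nonpos (by linarith)]
          linarith
      calc volume T ≤ volume (({x : ℂ | (g.it n).1.eval x * ζ.2 - (g.it n).2.eval x * ζ.1 = 0} ∪
          {x : ℂ | (g.it n).2.eval x = 0}) ∪
          ({t | ENNReal.ofReal (a * Λ) ≤ ENNReal.ofReal |Real.log (cd (g.F^[n] (t, 1)) ζ)|} ∩
            Metric.ball (0 : ℂ) R)) := measure_mono hsub
        _ ≤ volume ({x : ℂ | (g.it n).1.eval x * ζ.2 - (g.it n).2.eval x * ζ.1 = 0} ∪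
          {x : ℂ | (g.it n).2.eval x = 0}) +
          volume ({t | ENNReal.ofReal (a * Λ) ≤
            ENNReal.ofReal |Real.log (cd (g.F^[n] (t, 1)) ζ)|} ∩ Metric.ball (0 : ℂ) R) :=
            measure_union_le _ _
        _ = volume ({t | ENNReal.ofReal (a * Λ) ≤
            ENNReal.ofReal |Real.log (cd (g.F^[n] (t, 1)) ζ)|} ∩ Metric.ball (0 : ℂ) R) := by
            rw [hfin.measure_zero, zero_add]
        _ = volume.restrict (Metric.ball (0 : ℂ) R) {t | ENNReal.ofReal (a * Λ) ≤
            ENNReal.ofReal |Real.log (cd (g.F^[n] (t, 1)) ζ)|} := by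
            rw [Measure.restrict_apply' measurableSet_ball]
        _ ≤ _ := hcheb
        _ ≤ ENNReal.ofReal (CG * (κ ^ n + |Real.log (omh E ζ)|)) / ENNReal.ofReal (a * Λ) :=
            ENNReal.div_le_div_right hint _
        _ = ENNReal.ofReal (CG * (κ ^ n + |Real.log (omh E ζ)|) / (a * Λ)) := by
            rw [ENNReal.ofReal_div_of_pos haΛ]
        _ ≤ _ := by
            refine ENNReal.ofReal_le_ofReal ?_
            rw [div_le_iff₀ haΛ]
            have h2 : κ ^ n + |Real.log (omh E ζ)| ≤ (N + 1) * (η * c * Λ) := by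
              have h3 : (N : ℝ) * (η * (c * Λ) + (N + 1) + 1) = N * (η * c * Λ) + N * (N + 2) := by
                ring
              rw [h3] at hlog
              linarith
            have h4 : CG * (κ ^ n + |Real.log (omh E ζ)|) ≤ CG * ((N + 1) * (η * c * Λ)) :=
              mul_le_mul_of_nonneg_left h2 hCG
            have h5 : CG * ((N + 1) * (η * c * Λ)) = 4 * (D + 1) * CG * (N + 1) * η * (a * Λ) := by
              rw [hca]; ring
            have h6 : 0 ≤ 8 * (D + 1) * A * η * (a * Λ) := by positivity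
            nlinarith

/-! ### Fubini -/

theorem fubini {ι : Type} [Fintype ι] [DecidableEq ι] (R : ℝ) : ∃ K : ℝ, 0 ≤ K ∧
    ∀ M : Set (ι → ℂ), MeasurableSet M → (∀ x ∈ M, ∀ i, ‖x i‖ < R) → ∀ (l : ι) (a : ℝ), 0 ≤ a →
      (∀ x, volume {t : ℂ | Function.update x l t ∈ M} ≤ ENNReal.ofReal a) →
      volume M ≤ ENNReal.ofReal (K * a) := by
  obtain ⟨V, hV⟩ : ∃ V : ℝ≥0∞, V = volume {x : ι → ℂ | ∀ i, ‖x i‖ < R} := ⟨_, rfl⟩
  have hball : {x : ι → ℂ | ∀ i, ‖x i‖ < R} = Set.pi Set.univ fun _ => Metric.ball (0 : ℂ) R := by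
    ext x
    simp only [Set.mem_ofPred_eq, Set.mem_pi, Set.mem_univ, true_implies, mem_ball_zero_iff]
  have hBm : MeasurableSet {x : ι → ℂ | ∀ i, ‖x i‖ < R} := by
    rw [hball]
    exact MeasurableSet.pi Set.countable_univ fun _ _ => measurableSet_ball
  have hVtop : V ≠ ⊤ := by
    rw [hV, hball, volume_pi_pi]
    exact (ENNReal.prod_lt_top fun _ _ => measure_ball_lt_top).ne
  refine ⟨(V / volume (Metric.ball (0 : ℂ) R)).toReal, ENNReal.toReal_nonneg, ?_⟩
  intro M hM hMR l a ha hsl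
  by_cases hR : R ≤ 0
  · have h1 : M = ∅ := by
      rw [Set.eq_empty_iff_forall_notMem]
      intro x hx
      have := hMR x hx l
      have h2 := norm_nonneg (x l)
      linarith
    rw [h1, measure_empty]
    exact bot_le
  · rw [not_le] at hR
    have hA0 : volume (Metric.ball (0 : ℂ) R) ≠ 0 := (Metric.measure_ball_pos _ _ hR).ne'
    have hAt : volume (Metric.ball (0 : ℂ) R) ≠ ⊤ := measure_ball_lt_top.ne
    set A := volume (Metric.ball (0 : ℂ) R) with hA
    set B := {x : ι → ℂ | ∀ i, ‖x i‖ < R} with hB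
    -- slices
    have hslice : ∀ x : ι → ℂ, ∫⁻ t : ℂ, M.indicator (1 : (ι → ℂ) → ℝ≥0∞) (Function.update x l t) ≤
        ∫⁻ t : ℂ, (ENNReal.ofReal a / A) * B.indicator (1 : (ι → ℂ) → ℝ≥0∞)
          (Function.update x l t) := by
      intro x
      have hup : Measurable fun t : ℂ => Function.update x l t := measurable_update x
      have h1 : ∫⁻ t : ℂ, M.indicator (1 : (ι → ℂ) → ℝ≥0∞) (Function.update x l t) =
          volume {t : ℂ | Function.update x l t ∈ M} := by
        have h2 : (fun t : ℂ => M.indicator (1 : (ι → ℂ) → ℝ≥0∞) (Function.update x l t)) =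
            {t : ℂ | Function.update x l t ∈ M}.indicator 1 := by
          funext t
          rfl
        have h9 : MeasurableSet {t : ℂ | Function.update x l t ∈ M} := hup hM
        rw [h2]
        exact lintegral_indicator_one h9
      have h3 : ∫⁻ t : ℂ, B.indicator (1 : (ι → ℂ) → ℝ≥0∞) (Function.update x l t) =
          volume {t : ℂ | Function.update x l t ∈ B} := by
        have h2 : (fun t : ℂ => B.indicator (1 : (ι → ℂ) → ℝ≥0∞) (Function.update x l t)) =
            {t : ℂ | Function.update x l t ∈ B}.indicator 1 := by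
          funext t
          rfl
        have h9 : MeasurableSet {t : ℂ | Function.update x l t ∈ B} := hup hBm
        rw [h2]
        exact lintegral_indicator_one h9
      have h5 : ∫⁻ t : ℂ, (ENNReal.ofReal a / A) * B.indicator (1 : (ι → ℂ) → ℝ≥0∞)
          (Function.update x l t) = (ENNReal.ofReal a / A) *
            ∫⁻ t : ℂ, B.indicator (1 : (ι → ℂ) → ℝ≥0∞) (Function.update x l t) :=
        lintegral_const_mul _ ((measurable_one.indicator hBm).comp hup)
      rw [h5, h1, h3]
      by_cases hx : ∀ i, i ≠ l → ‖x i‖ < R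
      · have h4 : {t : ℂ | Function.update x l t ∈ B} = Metric.ball (0 : ℂ) R := by
          ext t
          rw [mem_ball_zero_iff]
          constructor
          · intro h
            have h5 := h l
            rwa [Function.update_self] at h5
          · intro h i
            by_cases hi : i = l
            · subst hi
              rwa [Function.update_self]
            · rw [Function.update_of_ne hi]
              exact hx i hi
        rw [h4, ← hA, ENNReal.div_mul_cancel hA0 hAt]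
        exact hsl x
      · have h4 : {t : ℂ | Function.update x l t ∈ M} = ∅ := by
          rw [Set.eq_empty_iff_forall_notMem]
          intro t ht
          apply hx
          intro i hi
          have h5 := hMR _ ht i
          rwa [Function.update_of_ne hi] at h5
        rw [h4, measure_empty]
        exact bot_le
    have hmI : Measurable (M.indicator (1 : (ι → ℂ) → ℝ≥0∞)) := measurable_one.indicator hM
    have hmB : Measurable fun x => (ENNReal.ofReal a / A) * B.indicator (1 : (ι → ℂ) → ℝ≥0∞) x :=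
      (measurable_one.indicator hBm).const_mul _
    have h1 : volume M = ∫⁻ x : ι → ℂ, M.indicator (1 : (ι → ℂ) → ℝ≥0∞) x := by
      rw [lintegral_indicator_one hM]
    have h2 : (ENNReal.ofReal a / A) * V =
        ∫⁻ x : ι → ℂ, (ENNReal.ofReal a / A) * B.indicator (1 : (ι → ℂ) → ℝ≥0∞) x := by
      rw [lintegral_const_mul _ (measurable_one.indicator hBm), lintegral_indicator_one hBm, hV]
    have h3 : volume M ≤ (ENNReal.ofReal a / A) * V := by
      rw [h1, h2, volume_pi, lintegral_eq_lmarginal_univ (fun _ => 0),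
        lintegral_eq_lmarginal_univ (fun _ => 0), lmarginal_erase' _ hmI (Finset.mem_univ l),
        lmarginal_erase' _ hmB (Finset.mem_univ l)]
      exact lmarginal_mono hslice _
    refine h3.trans (le_of_eq ?_)
    rw [ENNReal.ofReal_mul ENNReal.toReal_nonneg, ENNReal.ofReal_toReal
      (ENNReal.div_lt_top hVtop hA0).ne, ENNReal.div_eq_inv_mul, ENNReal.div_eq_inv_mul]
    ring

/-! ### the decomposition of a polynomial -/

theorem decomp {ι : Type} [Fintype ι] [DecidableEq ι] (l : ι) (B : Finset ι)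
    (h : MvPolynomial ι ℂ) (h0 : h ≠ 0) (hv : h.vars ⊆ insert l B) (D : ℕ)
    (hD : ∀ i, h.degreeOf i ≤ D) : ∃ H : ℕ → MvPolynomial ι ℂ, (∀ j, (H j).vars ⊆ B.erase l) ∧
      (∀ j i, (H j).degreeOf i ≤ D) ∧ (∃ j, j ≤ D ∧ H j ≠ 0) ∧
      ∀ y : ι → ℂ, MvPolynomial.eval y h =
        ∑ j ∈ Finset.range (D + 1), MvPolynomial.eval y (H j) * y l ^ j := by
  have hsum : ∀ y : ι → ℂ, MvPolynomial.eval y h =
        ∑ j ∈ Finset.range (D + 1), MvPolynomial.eval y
          (∑ m ∈ h.support with m l = j, MvPolynomial.monomial (m.erase l) (h.coeff m)) *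
            y l ^ j := by
    intro y
    have h1 : ∀ j, MvPolynomial.eval y
        (∑ m ∈ h.support with m l = j, MvPolynomial.monomial (m.erase l) (h.coeff m)) * y l ^ j =
        ∑ m ∈ h.support with m l = j, h.coeff m * m.prod fun n e => y n ^ e := by
      intro j
      rw [map_sum, Finset.sum_mul]
      refine Finset.sum_congr rfl fun m hm => ?_
      rw [Finset.mem_filter] at hm
      rw [MvPolynomial.eval_monomial, ← Finsupp.mul_prod_erase' m l (fun n e => y n ^ e)
        (fun i => pow_zero _), hm.2]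
      ring
    simp only [h1]
    rw [Finset.sum_fiberwise_of_maps_to (g := fun m : ι →₀ ℕ => m l), MvPolynomial.eval_eq]
    · rfl
    · intro m hm
      rw [Finset.mem_range]
      have := MvPolynomial.le_degreeOf_of_mem_support (i := l) hm
      have := hD l
      omega
  refine ⟨fun j => ∑ m ∈ h.support with m l = j, MvPolynomial.monomial (m.erase l) (h.coeff m),
    ?_, ?_, ?_, hsum⟩
  · intro j
    refine (MvPolynomial.vars_sum_subset _ _).trans ?_
    rw [Finset.biUnion_subset]
    intro m hm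
    rw [Finset.mem_filter] at hm
    rw [MvPolynomial.vars_monomial (MvPolynomial.mem_support_iff.1 hm.1), Finsupp.support_erase]
    intro i hi
    rw [Finset.mem_erase] at hi ⊢
    refine ⟨hi.1, ?_⟩
    have h2 : i ∈ h.vars := by
      rw [MvPolynomial.mem_vars_iff_mem_support]
      exact ⟨m, hm.1, hi.2⟩
    have h3 := hv h2
    rw [Finset.mem_insert] at h3
    exact h3.resolve_left hi.1
  · intro j i
    rw [MvPolynomial.degreeOf_le_iff]
    intro m' hm'
    have h2 := MvPolynomial.support_sum hm'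
    rw [Finset.mem_biUnion] at h2
    obtain ⟨m, hm, h3⟩ := h2
    have h4 := MvPolynomial.support_monomial_subset h3
    rw [Finset.mem_singleton] at h4
    rw [Finset.mem_filter] at hm
    have h5 := MvPolynomial.le_degreeOf_of_mem_support (i := i) hm.1
    have h6 := hD i
    rw [h4]
    by_cases hi : i = l
    · rw [hi, Finsupp.erase_same]
      exact Nat.zero_le _
    · rw [Finsupp.erase_ne hi]
      omega
  · by_contra hcon
    push Not at hcon
    apply h0
    apply MvPolynomial.funext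
    intro y
    rw [hsum y, map_zero]
    refine Finset.sum_eq_zero fun j hj => ?_
    rw [Finset.mem_range] at hj
    rw [hcon j (by omega), map_zero, zero_mul]

/-! ### measurability -/

theorem meas_val {d : ℕ} (g : RatMap d) (n : ℕ) : Measurable (g.val n) :=
  (g.it n).1.continuous.measurable.div (g.it n).2.continuous.measurable

theorem meas_om (E : Finset (OnePoint ℂ)) : Measurable (om E) := by
  have h1 : ∀ v : ℂ × ℂ, Measurable fun z : ℂ => cd (z, 1) v := by
    intro v
    have h2 : Measurable fun z : ℂ => ‖z * v.2 - 1 * v.1‖ :=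
      ((measurable_id.mul_const _).sub_const _).norm
    have h3 : Measurable fun z : ℂ => ‖((z, 1) : ℂ × ℂ)‖ * ‖v‖ :=
      ((measurable_id.prodMk measurable_const).norm).mul_const _
    exact h2.div h3
  have h4 : om E = fun z : ℂ => ∏ e ∈ E, cd (z, 1) (vec e) := rfl
  rw [h4]
  exact Finset.measurable_prod _ fun e _ => h1 _

theorem eval_congr {ι : Type} (p : MvPolynomial ι ℂ) (y y' : ι → ℂ) (h : ∀ i ∈ p.vars, y i = y' i) :
    MvPolynomial.eval y p = MvPolynomial.eval y' p := by
  refine MvPolynomial.hom_congr_vars ?_ ?_ rfl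
  · ext a
    rw [RingHom.comp_apply, RingHom.comp_apply, MvPolynomial.eval_C, MvPolynomial.eval_C]
  · intro i hi _
    rw [MvPolynomial.eval_X, MvPolynomial.eval_X]
    exact h i hi

theorem pf_VOL (h1 : T_IT) (h2 : T_FCT) : T_VOL := by
  intro ι _ _ d hd g E κ hg B
  have hd1 : (1 : ℝ) < d := by exact_mod_cast (by omega : 1 < d)
  have hlim1 : Tendsto (fun n : ℕ => (d : ℝ) ^ n) atTop atTop :=
    tendsto_pow_atTop_atTop_of_one_lt hd1
  have hsmall : ∀ b δ : ℝ, 0 < b → 0 < δ → ∃ n₀ : ℕ, ∀ n, n₀ ≤ n →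
      Real.exp (-(b * (d : ℝ) ^ n)) < δ := by
    intro b δ hb hδ
    have h3 : Tendsto (fun n : ℕ => Real.exp (-(b * (d : ℝ) ^ n))) atTop (𝓝 0) :=
      Real.tendsto_exp_neg_atTop_nhds_zero.comp (hlim1.const_mul_atTop hb)
    exact Filter.eventually_atTop.1 (h3.eventually (gt_mem_nhds hδ))
  induction B using Finset.induction_on with
  | empty =>
    intro h h0 hv D hD R
    refine ⟨0, le_rfl, fun c η hc hη => ?_⟩
    obtain ⟨a, ha⟩ : ∃ a, a = MvPolynomial.eval (fun _ => (0 : ℂ)) h := ⟨_, rfl⟩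
    have hconst : ∀ y, MvPolynomial.eval y h = a := by
      intro y
      rw [ha]
      refine eval_congr h _ _ fun i hi => ?_
      exact absurd (hv hi) (Finset.notMem_empty i)
    have ha0 : a ≠ 0 := by
      intro ha0
      apply h0
      apply MvPolynomial.funext
      intro y
      rw [hconst y, ha0, map_zero]
    obtain ⟨n₀, hn₀⟩ := hsmall c ‖a‖ hc (norm_pos_iff.2 ha0)
    refine ⟨n₀, fun n hn => ?_⟩
    have h3 : {x : ι → ℂ | (∀ l, ‖x l‖ < R) ∧
        (∀ l ∈ (∅ : Finset ι), Real.exp (-(η * (c * (d : ℝ) ^ n))) ≤ om (E l) ((g l).val n (x l))) ∧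
        ‖MvPolynomial.eval (fun l => (g l).val n (x l)) h‖ ≤
          Real.exp (-(c * (d : ℝ) ^ n)) *
            ∏ l ∈ (∅ : Finset ι), (max 1 ‖(g l).val n (x l)‖) ^ D} = ∅ := by
      rw [Set.eq_empty_iff_forall_notMem]
      rintro x ⟨-, -, h4⟩
      rw [hconst, Finset.prod_empty, mul_one] at h4
      exact absurd (hn₀ n hn) (not_lt.2 h4)
    rw [h3, measure_empty]
    exact bot_le
  | insert l B hl ih =>
    intro h h0 hv D hD R
    obtain ⟨H, hHv, hHd, ⟨j0, hj0, hj0'⟩, hHe⟩ := decomp l B h h0 hv D hD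
    obtain ⟨C1, hC1, hC1'⟩ := ih (H j0) hj0' ((hHv j0).trans (Finset.erase_subset _ _)) D
      (hHd j0) R
    obtain ⟨cF, hcF, hF⟩ := h2 D
    obtain ⟨C2, hC2, hC2'⟩ := slice_area h1 hd (g l) (E l) κ (hg l) D R
    obtain ⟨K, hK, hK'⟩ := fubini (ι := ι) R
    refine ⟨2 * C1 + K * (D * C2), by positivity, fun c η hc hη => ?_⟩
    obtain ⟨n1, hn1⟩ := hC1' (c / 2) (2 * η) (by positivity) (by positivity)
    obtain ⟨n2, hn2⟩ := hC2' c η hc hη
    obtain ⟨n3, hn3⟩ := hsmall (c / 4) cF (by positivity) hcF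
    refine ⟨max n1 (max n2 n3), fun n hn => ?_⟩
    have hn1' := hn1 n (le_trans (le_max_left _ _) hn)
    have hn2' := hn2 n (le_trans ((le_max_left _ _).trans (le_max_right _ _)) hn)
    have hn3' := hn3 n (le_trans ((le_max_right _ _).trans (le_max_right _ _)) hn)
    obtain ⟨Λ, hΛ⟩ : ∃ Λ : ℝ, Λ = (d : ℝ) ^ n := ⟨_, rfl⟩
    have hΛ0 : 0 < Λ := by rw [hΛ]; positivity
    rw [← hΛ] at hn1' hn3' ⊢
    -- the second bad set
    obtain ⟨M, hM⟩ : ∃ M : Set (ι → ℂ), M = {x : ι → ℂ | (∀ i, ‖x i‖ < R) ∧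
        Real.exp (-(η * (c * Λ))) ≤ om (E l) ((g l).val n (x l)) ∧
        ‖MvPolynomial.eval (fun i => (g i).val n (x i)) h‖ ≤ Real.exp (-(c * Λ)) *
          ((max 1 ‖(g l).val n (x l)‖) ^ D * ∏ i ∈ B, (max 1 ‖(g i).val n (x i)‖) ^ D) ∧
        Real.exp (-(c / 2 * Λ)) * (∏ i ∈ B, (max 1 ‖(g i).val n (x i)‖) ^ D) <
          ‖MvPolynomial.eval (fun i => (g i).val n (x i)) (H j0)‖} := ⟨_, rfl⟩
    have hsub : {x : ι → ℂ | (∀ l, ‖x l‖ < R) ∧
        (∀ i ∈ insert l B, Real.exp (-(η * (c * Λ))) ≤ om (E i) ((g i).val n (x i))) ∧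
        ‖MvPolynomial.eval (fun l => (g l).val n (x l)) h‖ ≤
          Real.exp (-(c * Λ)) * ∏ i ∈ insert l B, (max 1 ‖(g i).val n (x i)‖) ^ D} ⊆
        {x : ι → ℂ | (∀ l, ‖x l‖ < R) ∧
        (∀ l ∈ B, Real.exp (-(2 * η * (c / 2 * Λ))) ≤ om (E l) ((g l).val n (x l))) ∧
        ‖MvPolynomial.eval (fun l => (g l).val n (x l)) (H j0)‖ ≤
          Real.exp (-(c / 2 * Λ)) * ∏ l ∈ B, (max 1 ‖(g l).val n (x l)‖) ^ D} ∪ M := by
      rintro x ⟨hx1, hx2, hx3⟩
      rw [Finset.prod_insert hl] at hx3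
      by_cases hx4 : ‖MvPolynomial.eval (fun l => (g l).val n (x l)) (H j0)‖ ≤
          Real.exp (-(c / 2 * Λ)) * ∏ l ∈ B, (max 1 ‖(g l).val n (x l)‖) ^ D
      · left
        refine ⟨hx1, fun i hi => ?_, hx4⟩
        have h3 : 2 * η * (c / 2 * Λ) = η * (c * Λ) := by ring
        rw [h3]
        exact hx2 i (Finset.mem_insert_of_mem hi)
      · right
        rw [hM]
        exact ⟨hx1, hx2 l (Finset.mem_insert_self _ _), hx3, not_le.1 hx4⟩
    -- measurability
    have hmy : ∀ i, Measurable fun x : ι → ℂ => (g i).val n (x i) := fun i =>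
      (meas_val (g i) n).comp (measurable_pi_apply i)
    have hmY : Measurable fun x : ι → ℂ => fun i => (g i).val n (x i) :=
      measurable_pi_lambda _ hmy
    have hme : ∀ p : MvPolynomial ι ℂ, Measurable fun x : ι → ℂ =>
        ‖MvPolynomial.eval (fun i => (g i).val n (x i)) p‖ := fun p =>
      (((MvPolynomial.continuous_eval p).measurable).comp hmY).norm
    have hmm : ∀ i, Measurable fun x : ι → ℂ => (max 1 ‖(g i).val n (x i)‖) ^ D := fun i =>
      (measurable_const.max (hmy i).norm).pow_const D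
    have hmP : Measurable fun x : ι → ℂ => ∏ i ∈ B, (max 1 ‖(g i).val n (x i)‖) ^ D :=
      Finset.measurable_prod _ fun i _ => hmm i
    have hMm : MeasurableSet M := by
      have e1 : MeasurableSet {x : ι → ℂ | ∀ i, ‖x i‖ < R} := by
        have h3 : {x : ι → ℂ | ∀ i, ‖x i‖ < R} = ⋂ i, {x : ι → ℂ | ‖x i‖ < R} := by
          ext x
          simp only [Set.mem_ofPred_eq, Set.mem_iInter]
        rw [h3]
        exact MeasurableSet.iInter fun i =>
          measurableSet_lt (measurable_pi_apply i).norm measurable_const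
      have e2 : MeasurableSet {x : ι → ℂ |
          Real.exp (-(η * (c * Λ))) ≤ om (E l) ((g l).val n (x l))} :=
        measurableSet_le measurable_const ((meas_om (E l)).comp (hmy l))
      have e3 : MeasurableSet {x : ι → ℂ |
          ‖MvPolynomial.eval (fun i => (g i).val n (x i)) h‖ ≤ Real.exp (-(c * Λ)) *
          ((max 1 ‖(g l).val n (x l)‖) ^ D * ∏ i ∈ B, (max 1 ‖(g i).val n (x i)‖) ^ D)} :=
        measurableSet_le (hme h) (((hmm l).mul hmP).const_mul _)
      have e4 : MeasurableSet {x : ι → ℂ |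
          Real.exp (-(c / 2 * Λ)) * (∏ i ∈ B, (max 1 ‖(g i).val n (x i)‖) ^ D) <
          ‖MvPolynomial.eval (fun i => (g i).val n (x i)) (H j0)‖} :=
        measurableSet_lt (hmP.const_mul _) (hme (H j0))
      rw [hM]
      exact e1.inter (e2.inter (e3.inter e4))
    have hMR : ∀ x ∈ M, ∀ i, ‖x i‖ < R := by
      intro x hx
      rw [hM] at hx
      exact hx.1
    -- slices
    have hslice : ∀ x, volume {t : ℂ | Function.update x l t ∈ M} ≤
        ENNReal.ofReal (D * (C2 * η)) := by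
      intro x
      obtain ⟨y, hy⟩ : ∃ y : ι → ℂ, y = fun i => (g i).val n (x i) := ⟨_, rfl⟩
      obtain ⟨P, hP⟩ : ∃ P : ℝ, P = ∏ i ∈ B, (max 1 ‖(g i).val n (x i)‖) ^ D := ⟨_, rfl⟩
      have hP0 : 0 < P := by
        rw [hP]
        exact Finset.prod_pos fun i _ => pow_pos (lt_of_lt_of_le one_pos (le_max_left _ _)) _
      have hupP : ∀ t : ℂ, ∏ i ∈ B, (max 1 ‖(g i).val n (Function.update x l t i)‖) ^ D = P := by
        intro t
        rw [hP]
        refine Finset.prod_congr rfl fun i hi => ?_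
        have hil : i ≠ l := fun hh => hl (hh ▸ hi)
        rw [Function.update_of_ne hil]
      have hupe : ∀ (t : ℂ) (j : ℕ), MvPolynomial.eval
          (fun i => (g i).val n (Function.update x l t i)) (H j) = MvPolynomial.eval y (H j) := by
        intro t j
        refine eval_congr _ _ _ fun i hi => ?_
        have h3 := hHv j hi
        rw [Finset.mem_erase] at h3
        rw [hy, Function.update_of_ne h3.1]
      by_cases hs : Real.exp (-(c / 2 * Λ)) * P < ‖MvPolynomial.eval y (H j0)‖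
      · obtain ⟨q, hq⟩ : ∃ q : ℂ[X], q = ∑ j ∈ Finset.range (D + 1),
            C (MvPolynomial.eval y (H j)) * X ^ j := ⟨_, rfl⟩
        have hqd : q.natDegree ≤ D := by
          rw [hq]
          refine natDegree_sum_le_of_forall_le _ _ fun j hj => ?_
          rw [Finset.mem_range] at hj
          exact (natDegree_C_mul_X_pow_le _ _).trans (by omega)
        have hqc : q.coeff j0 = MvPolynomial.eval y (H j0) := by
          rw [hq, finsetSum_coeff, Finset.sum_eq_single j0]
          · rw [coeff_C_mul_X_pow, if_pos rfl]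
          · intro j _ hj
            rw [coeff_C_mul_X_pow, if_neg (Ne.symm hj)]
          · intro hj
            exact absurd (Finset.mem_range.2 (by omega)) hj
        have hqe : ∀ t : ℂ, q.eval ((g l).val n t) = MvPolynomial.eval
            (fun i => (g i).val n (Function.update x l t i)) h := by
          intro t
          rw [hHe, hq, eval_finsetSum]
          refine Finset.sum_congr rfl fun j _ => ?_
          rw [eval_mul, eval_C, eval_pow, eval_X, hupe t j, Function.update_self]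
        have hs0 : 0 < Real.exp (-(c / 2 * Λ)) * P := mul_pos (Real.exp_pos _) hP0
        obtain ⟨ζ, hζ, hζ'⟩ := hF q hqd _ hs0 ⟨j0, by rw [hqc]; exact hs.le⟩
        have hcov : {t : ℂ | Function.update x l t ∈ M} ⊆ ⋃ i : Fin D, {t : ℂ | ‖t‖ < R ∧
            Real.exp (-(η * (c * (d : ℝ) ^ n))) ≤ om (E l) ((g l).val n t) ∧
            cd ((g l).val n t, 1) (ζ i) ≤ Real.exp (-(c / (4 * (D + 1)) * (d : ℝ) ^ n))} := by
          intro t ht
          rw [Set.mem_ofPred_eq, hM] at ht
          obtain ⟨ht1, ht2, ht3, -⟩ := ht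
          have ht1' := ht1 l
          rw [Function.update_self] at ht1' ht2 ht3
          rw [hupP t, ← hqe t] at ht3
          by_contra hcon
          rw [Set.mem_iUnion, not_exists] at hcon
          have hbig : ∀ i, Real.exp (-(c / (4 * (D + 1)) * Λ)) ≤ cd ((g l).val n t, 1) (ζ i) := by
            intro i
            by_contra hlt
            rw [not_le] at hlt
            exact hcon i ⟨ht1', by rw [← hΛ]; exact ht2, by rw [← hΛ]; exact hlt.le⟩
          have h3 := hζ' ((g l).val n t)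
          have h4 : Real.exp (-(c / 4 * Λ)) ≤ ∏ i, cd ((g l).val n t, 1) (ζ i) := by
            calc Real.exp (-(c / 4 * Λ)) ≤ Real.exp (-(c / (4 * (D + 1)) * Λ)) ^ D := by
                  rw [← Real.exp_nat_mul]
                  refine Real.exp_le_exp.2 ?_
                  have h5 : (D : ℝ) * (c / (4 * (D + 1)) * Λ) ≤ c / 4 * Λ := by
                    have h6 : (D : ℝ) * (c / (4 * (D + 1))) ≤ c / 4 := by
                      rw [← mul_div_assoc, div_le_div_iff₀ (by positivity) (by norm_num)]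
                      nlinarith
                    calc (D : ℝ) * (c / (4 * (D + 1)) * Λ) = (D : ℝ) * (c / (4 * (D + 1))) * Λ := by
                          ring
                      _ ≤ c / 4 * Λ := mul_le_mul_of_nonneg_right h6 hΛ0.le
                  linarith
              _ = ∏ _i : Fin D, Real.exp (-(c / (4 * (D + 1)) * Λ)) := by
                  rw [Finset.prod_const, Finset.card_univ, Fintype.card_fin]
              _ ≤ _ := Finset.prod_le_prod (fun _ _ => (Real.exp_pos _).le) fun i _ => hbig i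
          obtain ⟨m, hm⟩ : ∃ m : ℝ, m = (max 1 ‖(g l).val n t‖) ^ D := ⟨_, rfl⟩
          have hm0 : 0 < m := by
            rw [hm]
            exact pow_pos (lt_of_lt_of_le one_pos (le_max_left _ _)) _
          rw [← hm] at h3 ht3
          have h7 : cF * (Real.exp (-(c / 2 * Λ)) * P) * m * Real.exp (-(c / 4 * Λ)) ≤
              Real.exp (-(c * Λ)) * (m * P) :=
            ((mul_le_mul_of_nonneg_left h4 (by positivity)).trans h3).trans ht3
          have h8 : Real.exp (-(c * Λ)) = Real.exp (-(c / 2 * Λ)) * Real.exp (-(c / 4 * Λ)) *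
              Real.exp (-(c / 4 * Λ)) := by
            rw [← Real.exp_add, ← Real.exp_add]
            congr 1
            ring
          rw [h8] at h7
          have h9 : 0 < Real.exp (-(c / 2 * Λ)) * Real.exp (-(c / 4 * Λ)) * (m * P) := by
            positivity
          have h10 : cF * (Real.exp (-(c / 2 * Λ)) * Real.exp (-(c / 4 * Λ)) * (m * P)) ≤
              Real.exp (-(c / 4 * Λ)) *
                (Real.exp (-(c / 2 * Λ)) * Real.exp (-(c / 4 * Λ)) * (m * P)) := by
            linarith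
          exact absurd hn3' (not_lt.2 (le_of_mul_le_mul_right h10 h9))
        calc volume {t : ℂ | Function.update x l t ∈ M} ≤ volume (⋃ i : Fin D, {t : ℂ | ‖t‖ < R ∧
            Real.exp (-(η * (c * (d : ℝ) ^ n))) ≤ om (E l) ((g l).val n t) ∧
            cd ((g l).val n t, 1) (ζ i) ≤ Real.exp (-(c / (4 * (D + 1)) * (d : ℝ) ^ n))}) :=
              measure_mono hcov
          _ ≤ ∑ i : Fin D, volume {t : ℂ | ‖t‖ < R ∧
            Real.exp (-(η * (c * (d : ℝ) ^ n))) ≤ om (E l) ((g l).val n t) ∧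
            cd ((g l).val n t, 1) (ζ i) ≤ Real.exp (-(c / (4 * (D + 1)) * (d : ℝ) ^ n))} :=
              measure_iUnion_fintype_le _ _
          _ ≤ ∑ _i : Fin D, ENNReal.ofReal (C2 * η) :=
              Finset.sum_le_sum fun i _ => hn2' (ζ i) (hζ i)
          _ = ENNReal.ofReal (D * (C2 * η)) := by
              rw [Finset.sum_const, Finset.card_univ, Fintype.card_fin, nsmul_eq_mul,
                ENNReal.ofReal_mul (Nat.cast_nonneg _), ENNReal.ofReal_natCast]
      · have h3 : {t : ℂ | Function.update x l t ∈ M} = ∅ := by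
          rw [Set.eq_empty_iff_forall_notMem]
          intro t ht
          rw [Set.mem_ofPred_eq, hM] at ht
          obtain ⟨-, -, -, ht4⟩ := ht
          rw [hupP t, hupe t j0] at ht4
          exact hs ht4
        rw [h3, measure_empty]
        exact bot_le
    have hvM := hK' M hMm hMR l (D * (C2 * η)) (by positivity) hslice
    calc volume {x : ι → ℂ | (∀ l, ‖x l‖ < R) ∧
        (∀ i ∈ insert l B, Real.exp (-(η * (c * Λ))) ≤ om (E i) ((g i).val n (x i))) ∧
        ‖MvPolynomial.eval (fun l => (g l).val n (x l)) h‖ ≤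
          Real.exp (-(c * Λ)) * ∏ i ∈ insert l B, (max 1 ‖(g i).val n (x i)‖) ^ D}
        ≤ volume ({x : ι → ℂ | (∀ l, ‖x l‖ < R) ∧
        (∀ l ∈ B, Real.exp (-(2 * η * (c / 2 * Λ))) ≤ om (E l) ((g l).val n (x l))) ∧
        ‖MvPolynomial.eval (fun l => (g l).val n (x l)) (H j0)‖ ≤
          Real.exp (-(c / 2 * Λ)) * ∏ l ∈ B, (max 1 ‖(g l).val n (x l)‖) ^ D} ∪ M) :=
          measure_mono hsub
      _ ≤ _ := measure_union_le _ _
      _ ≤ ENNReal.ofReal (C1 * (2 * η)) + ENNReal.ofReal (K * (D * (C2 * η))) :=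
          add_le_add hn1' hvM
      _ = ENNReal.ofReal ((2 * C1 + K * (D * C2)) * η) := by
          rw [← ENNReal.ofReal_add (by positivity) (by positivity)]
          congr 1
          ring

end Pool.Agent.H80.UDB
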